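import Mathlib
import Pool.Agent.H88.PCBW

/-!
# The Bloom–Walker theorem with an explicit exponent

For every `C > 17 / 2`, every strictly increasing sequence of positive integers with
`E_N = O(N ^ 3 / (log N) ^ C)` is metric Poissonian.

Idea: variance bound by a GCD sum over the differences; Cauchy–Schwarz twice; a
Szemerédi–Trotter type bound for Cartesian products by a decomposition into cells; a divisor type
sum.
-/

set_option autoImplicit false

namespace Pool.Agent.Results.MP_1f5025_nt.ExplicitExponent

open Filter Topology Pool.Agent.H88.PCDefs

theorem result (C : ℝ) (hC : 17 / 2 < C) : IsThreshold (fun N => (Real.log N) ^ C) :=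
  Pool.Agent.H88.PCBW.bloom_walker hC

end Pool.Agent.Results.MP_1f5025_nt.ExplicitExponent
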