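import Mathlib
import Pool.Agent.H91.PPCInsert

/-!
# Additive energy close to the maximum does not exclude Poissonian pair correlations

For every `ψ → ∞` and every irrational `α` there is a strictly increasing sequence of positive
integers `a n` whose additive energy satisfies `E_N ≥ c N^3 / ψ N` for all large `N`, while
the fractional parts of `a n * α` have Poissonian pair correlations.

Idea: take a sequence on the circle with Poissonian pair correlations, approximate its terms by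
multiples `a α` of `α`, and insert in every dyadic block of indices `[2^j, 2^(j+1))` an arithmetic
progression of length about `2^j / ψ^(1/3)` whose difference `d` is such that `d α` is extremely
close to `√2` modulo one, so that its points are well separated modulo one.
-/

set_option autoImplicit false

namespace Pool.Agent.Results.MP_1f5025_nt.HighEnergyPPC

open Filter Topology Finset Pool.Agent.H91.PPCExist Pool.Agent.H91.PPCBlocks
  Pool.Agent.H91.PPCInsert

/-- The distance of a real number to the nearest integer. -/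
noncomputable def distInt (y : ℝ) : ℝ := |y - round y|

/-- The number of ordered pairs `(k, l)`, `k ≠ l`, of indices of the first `N` terms of `x` such
that `x k - x l` is at distance less than `δ` from the nearest integer. -/
noncomputable def closePairs (x : ℕ → ℝ) (N : ℕ) (δ : ℝ) : ℕ :=
  ((range N ×ˢ range N).filter (fun p => p.1 ≠ p.2 ∧ distInt (x p.1 - x p.2) < δ)).card

/-- Poissonian pair correlations. -/
def HasPPC (x : ℕ → ℝ) : Prop :=
  ∀ s : ℝ, 0 < s → Tendsto (fun N : ℕ => (closePairs x N (s / N) : ℝ) / N) atTop (𝓝 (2 * s))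

/-- The additive energy of the first `N` terms of an integer sequence. -/
def energy (a : ℕ → ℕ) (N : ℕ) : ℕ :=
  ((range N ×ˢ range N ×ˢ range N ×ˢ range N).filter
    (fun q => a q.1 + a q.2.1 = a q.2.2.1 + a q.2.2.2)).card

/-! ### Density of the multiples of an irrational number -/

lemma exists_multiple {α : ℝ} (hα : Irrational α) (v : UnitAddCircle) {ε : ℝ} (hε : 0 < ε)
    (b : ℕ) : ∃ a : ℕ, b < a ∧ ‖a • (α : UnitAddCircle) - v‖ < ε := by
  have h1 : DenseRange (· • (α : UnitAddCircle) : ℤ → UnitAddCircle) :=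
    AddCircle.denseRange_zsmul_coe_iff.2 (by simpa using hα)
  have h2 : v ∈ (AddSubgroup.zmultiples (α : UnitAddCircle)).topologicalClosure := by
    rw [← SetLike.mem_coe, AddSubgroup.topologicalClosure_coe, AddSubgroup.coe_zmultiples]
    exact h1 v
  rw [← mapClusterPt_atTop_nsmul_iff_mem_topologicalClosure_zmultiples] at h2
  have h3 := h2.frequently (Metric.ball_mem_nhds v hε)
  obtain ⟨a, ha1, ha2⟩ := frequently_atTop.1 h3 (b + 1)
  refine ⟨a, by omega, ?_⟩
  rw [← dist_eq_norm]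
  exact ha2

/-! ### Square root of two is badly approximable -/

lemma sqrt_two_bad (h : ℕ) (hh : 1 ≤ h) :
    1 / (4 * (h : ℝ)) ≤ ‖h • ((Real.sqrt 2 : ℝ) : UnitAddCircle)‖ := by
  rw [← AddCircle.coe_nsmul, UnitAddCircle.norm_eq, nsmul_eq_mul]
  set m := round ((h : ℝ) * Real.sqrt 2) with hm
  have hh' : (1 : ℝ) ≤ h := by exact_mod_cast hh
  have hs : Real.sqrt 2 * Real.sqrt 2 = 2 := Real.mul_self_sqrt (by norm_num)
  have hs1 : Real.sqrt 2 < 1.5 := by
    rw [Real.sqrt_lt' (by norm_num)]; norm_num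
  have hs0 : 0 < Real.sqrt 2 := Real.sqrt_pos.2 (by norm_num)
  have hne : (2 : ℤ) * h ^ 2 - m ^ 2 ≠ 0 := by
    intro h0
    have h1 : (2 : ℝ) * h ^ 2 = m ^ 2 := by
      have : ((2 * h ^ 2 - m ^ 2 : ℤ) : ℝ) = 0 := by rw [h0]; simp
      push_cast at this
      linarith
    have h2 : Real.sqrt 2 = |(m : ℝ)| / h := by
      rw [eq_div_iff (by positivity)]
      have h3 : (Real.sqrt 2 * h) ^ 2 = |(m : ℝ)| ^ 2 := by
        rw [sq_abs, ← h1, mul_pow, Real.sq_sqrt (by norm_num)]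
      exact (pow_left_inj₀ (by positivity) (abs_nonneg _) (by norm_num)).1 h3
    apply irrational_sqrt_two
    refine ⟨|(m : ℚ)| / h, ?_⟩
    push_cast
    exact h2.symm
  have h1 : (1 : ℝ) ≤ |(2 : ℝ) * h ^ 2 - m ^ 2| := by
    have := Int.one_le_abs hne
    exact_mod_cast this
  have h2 : (2 : ℝ) * h ^ 2 - m ^ 2 = (h * Real.sqrt 2 - m) * (h * Real.sqrt 2 + m) := by
    linear_combination (-(h : ℝ) ^ 2) * hs
  rw [h2, abs_mul] at h1
  have h3 : |(h : ℝ) * Real.sqrt 2 - m| ≤ 1 / 2 := abs_sub_round _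
  have h4 : |(h : ℝ) * Real.sqrt 2 + m| ≤ 4 * h := by
    have e : (h : ℝ) * Real.sqrt 2 + m = 2 * (h * Real.sqrt 2) - (h * Real.sqrt 2 - m) := by ring
    rw [e]
    calc |2 * ((h : ℝ) * Real.sqrt 2) - (h * Real.sqrt 2 - m)|
        ≤ |2 * ((h : ℝ) * Real.sqrt 2)| + |(h : ℝ) * Real.sqrt 2 - m| := abs_sub _ _
      _ ≤ 2 * (h * 1.5) + 1 / 2 := by
          rw [abs_of_nonneg (by positivity)]
          gcongr
      _ ≤ 4 * h := by linarith
  rw [div_le_iff₀ (by positivity)]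
  calc (1 : ℝ) ≤ |(h : ℝ) * Real.sqrt 2 - m| * |(h : ℝ) * Real.sqrt 2 + m| := h1
    _ ≤ |(h : ℝ) * Real.sqrt 2 - m| * (4 * h) :=
        mul_le_mul_of_nonneg_left h4 (abs_nonneg _)

/-! ### The slowly growing function -/

section Tau

variable (ψ : ℕ → ℝ)

open Classical in
/-- a slowly growing function with `τ j ≤ j` and `(τ j)^3 ≤ ψ N` for all `N ≥ 2^j` (if `τ j ≠ 0`) -/
noncomputable def tau (j : ℕ) : ℕ :=
  Nat.findGreatest (fun t => ∀ N : ℕ, 2 ^ j ≤ N → (t : ℝ) ^ 3 ≤ ψ N) j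

open Classical in
lemma tau_le (j : ℕ) : tau ψ j ≤ j :=
  Nat.findGreatest_le (P := fun t => ∀ N : ℕ, 2 ^ j ≤ N → (t : ℝ) ^ 3 ≤ ψ N) j

open Classical in
lemma tau_spec (j : ℕ) (h : tau ψ j ≠ 0) : ∀ N : ℕ, 2 ^ j ≤ N → (tau ψ j : ℝ) ^ 3 ≤ ψ N := by
  exact Nat.findGreatest_of_ne_zero (P := fun t => ∀ N : ℕ, 2 ^ j ≤ N → (t : ℝ) ^ 3 ≤ ψ N) rfl h

open Classical in
lemma tau_tendsto (hψ : Tendsto ψ atTop atTop) : Tendsto (tau ψ) atTop atTop := by
  refine tendsto_atTop.2 fun t => ?_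
  obtain ⟨N0, hN0⟩ := eventually_atTop.1 (tendsto_atTop.1 hψ ((t : ℝ) ^ 3))
  filter_upwards [eventually_ge_atTop (max t N0)] with j hj
  refine Nat.le_findGreatest (P := fun t => ∀ N : ℕ, 2 ^ j ≤ N → (t : ℝ) ^ 3 ≤ ψ N)
    ((le_max_left _ _).trans hj) ?_
  intro N hN
  apply hN0
  exact ((le_max_right _ _).trans hj).trans (Nat.lt_two_pow_self.le.trans hN)

end Tau

/-! ### The construction -/

section Construction

variable (τ : ℕ → ℕ)

/-- length of the progression in block `j` -/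
def M (j : ℕ) : ℕ := 2 ^ j / (τ j + 2)

lemma M_le_half (j : ℕ) : M τ j ≤ 2 ^ j / 2 :=
  Nat.div_le_div_left (by omega) (by norm_num)

lemma M_lt (j : ℕ) : M τ j < 2 ^ j :=
  Nat.div_lt_self (by positivity) (by omega)

/-- structured indices -/
def IsP (n : ℕ) : Prop := n - 2 ^ (Nat.log 2 n) < M τ (Nat.log 2 n)

instance : DecidablePred (IsP τ) := fun n => by unfold IsP; infer_instance

lemma log_add {j i : ℕ} (hi : i < 2 ^ j) : Nat.log 2 (2 ^ j + i) = j := by
  rw [Nat.log_eq_iff (Or.inr ⟨by norm_num, by positivity⟩)]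
  constructor
  · omega
  · rw [pow_succ]; omega

lemma isP_add {j i : ℕ} (hi : i < M τ j) : IsP τ (2 ^ j + i) := by
  unfold IsP
  rw [log_add (hi.trans (M_lt τ j))]
  omega

lemma not_isP_zero : ¬ IsP τ 0 := by
  unfold IsP M
  rw [Nat.log_zero_right, pow_zero, Nat.div_eq_of_lt (by omega)]
  omega

lemma isP_repr {n : ℕ} (h : IsP τ n) : ∃ j i, i < M τ j ∧ n = 2 ^ j + i ∧ Nat.log 2 n = j := by
  have hn : n ≠ 0 := by rintro rfl; exact not_isP_zero τ h
  have h1 := Nat.pow_log_le_self 2 hn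
  exact ⟨Nat.log 2 n, n - 2 ^ (Nat.log 2 n), h, by omega, rfl⟩

lemma infinite_not_isP : {n | ¬ IsP τ n}.Infinite := by
  refine Set.infinite_of_forall_exists_gt fun a => ?_
  refine ⟨2 ^ (a + 1) + 2 ^ a, ?_, ?_⟩
  · simp only [Set.mem_ofPred_eq]
    unfold IsP
    rw [log_add (by rw [pow_succ]; have := Nat.two_pow_pos a; omega)]
    have h1 := M_le_half τ (a + 1)
    have h2 : (2 : ℕ) ^ (a + 1) / 2 = 2 ^ a := by rw [pow_succ]; simp
    omega
  · have : a < 2 ^ a := Nat.lt_two_pow_self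
    omega

lemma Bl_card (j N : ℕ) : (Bl (IsP τ) j N).card ≤ M τ j := by
  rw [← Finset.card_range (M τ j)]
  apply Finset.card_le_card_of_injOn (fun k => k - 2 ^ j)
  · intro k hk
    simp only [Bl, Finset.coe_filter, Finset.mem_range, Set.mem_ofPred_eq] at hk
    obtain ⟨j', i, hi, h1, h2⟩ := isP_repr τ hk.2.1
    rw [hk.2.2] at h2
    subst h2
    simp only [Finset.coe_range, Set.mem_Iio]
    omega
  · intro k hk k' hk' hkk'
    simp only [Bl, Finset.coe_filter, Finset.mem_range, Set.mem_ofPred_eq] at hk hk' hkk'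
    obtain ⟨j', i, hi, h1, h2⟩ := isP_repr τ hk.2.1
    obtain ⟨j'', i', hi', h1', h2'⟩ := isP_repr τ hk'.2.1
    rw [hk.2.2] at h2
    rw [hk'.2.2] at h2'
    subst h2
    subst h2'
    omega

variable {α : ℝ} (hα : Irrational α) (u : ℕ → UnitAddCircle)

/-- the difference of the progression in block `j` -/
noncomputable def dif (j : ℕ) : ℕ :=
  Classical.choose (exists_multiple hα ((Real.sqrt 2 : ℝ) : UnitAddCircle)
    (ε := 1 / (8 * ((M τ j : ℝ) + 1) ^ 2)) (by positivity) 0)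

lemma dif_spec (j : ℕ) : 0 < dif τ hα j ∧
    ‖dif τ hα j • (α : UnitAddCircle) - ((Real.sqrt 2 : ℝ) : UnitAddCircle)‖ <
      1 / (8 * ((M τ j : ℝ) + 1) ^ 2) :=
  Classical.choose_spec (exists_multiple hα ((Real.sqrt 2 : ℝ) : UnitAddCircle)
    (ε := 1 / (8 * ((M τ j : ℝ) + 1) ^ 2)) (by positivity) 0)

/-- the integer approximating the `i`-th random target and exceeding `b` -/
noncomputable def app (i b : ℕ) : ℕ :=
  Classical.choose (exists_multiple hα (u i) (ε := (1 / 2 : ℝ) ^ i) (by positivity) b)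

lemma app_spec (i b : ℕ) : b < app hα u i b ∧
    ‖app hα u i b • (α : UnitAddCircle) - u i‖ < (1 / 2 : ℝ) ^ i :=
  Classical.choose_spec (exists_multiple hα (u i) (ε := (1 / 2 : ℝ) ^ i) (by positivity) b)

/-- the term with index `n`, when the previous one is `b` -/
noncomputable def next (n b : ℕ) : ℕ :=
  if IsP τ n then (if n = 2 ^ (Nat.log 2 n) then b + 1 else b + dif τ hα (Nat.log 2 n))
  else app hα u (Nat.count (fun m => ¬ IsP τ m) n) b

lemma next_gt (n b : ℕ) : b < next τ hα u n b := by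
  unfold next
  split_ifs
  · omega
  · have := (dif_spec τ hα (Nat.log 2 n)).1
    omega
  · exact (app_spec hα u _ b).1

/-- the sequence -/
noncomputable def seq : ℕ → ℕ
  | 0 => next τ hα u 0 0
  | n + 1 => next τ hα u (n + 1) (seq n)

lemma seq_strictMono : StrictMono (seq τ hα u) :=
  strictMono_nat_of_lt_succ fun n => next_gt τ hα u (n + 1) _

lemma seq_pos (n : ℕ) : 0 < seq τ hα u n := by
  cases n with
  | zero => exact next_gt τ hα u 0 0
  | succ n => exact (Nat.zero_le _).trans_lt (next_gt τ hα u (n + 1) _)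

lemma seq_approx (n : ℕ) (hn : ¬ IsP τ n) :
    ‖seq τ hα u n • (α : UnitAddCircle) - u (Nat.count (fun m => ¬ IsP τ m) n)‖ ≤
      (1 / 2 : ℝ) ^ (Nat.count (fun m => ¬ IsP τ m) n) := by
  cases n with
  | zero =>
    have h : seq τ hα u 0 = app hα u (Nat.count (fun m => ¬ IsP τ m) 0) 0 := by
      rw [seq, next, if_neg hn]
    rw [h]
    exact (app_spec hα u _ _).2.le
  | succ n =>
    have h : seq τ hα u (n + 1) = app hα u (Nat.count (fun m => ¬ IsP τ m) (n + 1))
        (seq τ hα u n) := by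
      rw [seq, next, if_neg hn]
    rw [h]
    exact (app_spec hα u _ _).2.le

lemma seq_prog (j i : ℕ) (hi : i < M τ j) :
    seq τ hα u (2 ^ j + i) = seq τ hα u (2 ^ j) + i * dif τ hα j := by
  induction i with
  | zero => simp
  | succ i ih =>
    have h1 := ih (by omega)
    have h2 : IsP τ (2 ^ j + i + 1) := isP_add τ hi
    have h3 : Nat.log 2 (2 ^ j + i + 1) = j := by
      have := log_add (j := j) (i := i + 1) (hi.trans (M_lt τ j))
      exact this
    have h4 : 2 ^ j + i + 1 ≠ 2 ^ (Nat.log 2 (2 ^ j + i + 1)) := by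
      rw [h3]; omega
    have h5 : seq τ hα u (2 ^ j + (i + 1)) = seq τ hα u (2 ^ j + i) + dif τ hα j := by
      show seq τ hα u (2 ^ j + i + 1) = _
      rw [seq, next, if_pos h2, if_neg h4, h3]
    rw [h5, h1]
    ring

/-- the points on the circle -/
noncomputable def pt (n : ℕ) : UnitAddCircle := seq τ hα u n • (α : UnitAddCircle)

lemma pt_sep_aux (j i i' : ℕ) (hi : i < M τ j) (hi' : i' < i) :
    1 / (8 * (M τ j : ℝ)) ≤ ‖pt τ hα u (2 ^ j + i) - pt τ hα u (2 ^ j + i')‖ := by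
  obtain ⟨h, rfl⟩ : ∃ h, i = i' + h := ⟨i - i', by omega⟩
  have hh : 1 ≤ h := by omega
  have hhM : h ≤ M τ j := by omega
  have e : pt τ hα u (2 ^ j + (i' + h)) - pt τ hα u (2 ^ j + i') =
      h • ((Real.sqrt 2 : ℝ) : UnitAddCircle) +
      h • (dif τ hα j • (α : UnitAddCircle) - ((Real.sqrt 2 : ℝ) : UnitAddCircle)) := by
    unfold pt
    rw [seq_prog τ hα u j _ hi, seq_prog τ hα u j i' (by omega), smul_sub, smul_smul,
      add_smul, add_smul, add_mul, add_smul]
    abel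
  rw [e]
  have h1 := sqrt_two_bad h hh
  have h2 : ‖h • (dif τ hα j • (α : UnitAddCircle) - ((Real.sqrt 2 : ℝ) : UnitAddCircle))‖ ≤
      1 / (8 * (h : ℝ)) := by
    refine (norm_nsmul_le).trans ?_
    have h3 := (dif_spec τ hα j).2.le
    have hM1 : (h : ℝ) ≤ (M τ j : ℝ) + 1 := by
      have : (h : ℝ) ≤ M τ j := by exact_mod_cast hhM
      linarith
    have hh' : (0 : ℝ) < h := by exact_mod_cast hh
    calc (h : ℝ) * ‖dif τ hα j • (α : UnitAddCircle) - ((Real.sqrt 2 : ℝ) : UnitAddCircle)‖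
        ≤ h * (1 / (8 * ((M τ j : ℝ) + 1) ^ 2)) := mul_le_mul_of_nonneg_left h3 hh'.le
      _ ≤ h * (1 / (8 * (h : ℝ) ^ 2)) := by
          apply mul_le_mul_of_nonneg_left _ hh'.le
          apply one_div_le_one_div_of_le (by positivity)
          gcongr
      _ = 1 / (8 * (h : ℝ)) := by field_simp
  have hh' : (0 : ℝ) < h := by exact_mod_cast hh
  have hM' : (h : ℝ) ≤ M τ j := by exact_mod_cast hhM
  have h4 : ‖h • ((Real.sqrt 2 : ℝ) : UnitAddCircle)‖ ≤
      ‖h • ((Real.sqrt 2 : ℝ) : UnitAddCircle) +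
      h • (dif τ hα j • (α : UnitAddCircle) - ((Real.sqrt 2 : ℝ) : UnitAddCircle))‖ +
      ‖h • (dif τ hα j • (α : UnitAddCircle) - ((Real.sqrt 2 : ℝ) : UnitAddCircle))‖ := by
    have := norm_sub_le (h • ((Real.sqrt 2 : ℝ) : UnitAddCircle) +
      h • (dif τ hα j • (α : UnitAddCircle) - ((Real.sqrt 2 : ℝ) : UnitAddCircle)))
      (h • (dif τ hα j • (α : UnitAddCircle) - ((Real.sqrt 2 : ℝ) : UnitAddCircle)))
    rwa [add_sub_cancel_right] at this
  have h5 : 1 / (4 * (h : ℝ)) = 1 / (8 * (h : ℝ)) + 1 / (8 * (h : ℝ)) := by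
    field_simp; norm_num
  have h6 : 1 / (8 * (M τ j : ℝ)) ≤ 1 / (8 * (h : ℝ)) := by
    apply one_div_le_one_div_of_le (by positivity)
    linarith
  linarith

lemma pt_sep (j i i' : ℕ) (hi : i < M τ j) (hi' : i' < M τ j) (hne : i ≠ i') :
    1 / (8 * (M τ j : ℝ)) ≤ ‖pt τ hα u (2 ^ j + i) - pt τ hα u (2 ^ j + i')‖ := by
  rcases Nat.lt_or_gt_of_ne hne with h | h
  · rw [norm_sub_rev]
    exact pt_sep_aux τ hα u j i' i hi' h
  · exact pt_sep_aux τ hα u j i i' hi h

lemma pt_hsep (hτ : Tendsto τ atTop atTop) (s : ℝ) (hs : 0 < s) :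
    ∀ᶠ N : ℕ in atTop, ∀ k < N, ∀ k' < N, IsP τ k → IsP τ k' →
      Nat.log 2 k = Nat.log 2 k' → k ≠ k' → s / N ≤ ‖pt τ hα u k - pt τ hα u k'‖ := by
  obtain ⟨J, hJ⟩ := eventually_atTop.1 (tendsto_atTop.1
    (tendsto_natCast_atTop_atTop.comp hτ : Tendsto (fun j => (τ j : ℝ)) atTop atTop) (8 * s))
  obtain ⟨N0, hN0⟩ := exists_nat_gt (8 * s * 2 ^ J)
  filter_upwards [eventually_ge_atTop (N0 + 1)] with N hN k hk k' hk' hP hP' hlog hne
  obtain ⟨j, i, hi, h1, h2⟩ := isP_repr τ hP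
  obtain ⟨j', i', hi', h1', h2'⟩ := isP_repr τ hP'
  have hjj : j' = j := by rw [← h2, ← h2', hlog]
  subst hjj
  have hii : i ≠ i' := by
    rintro rfl
    exact hne (by rw [h1, h1'])
  have hsep := pt_sep τ hα u j' i i' hi hi' hii
  rw [← h1, ← h1'] at hsep
  refine le_trans ?_ hsep
  have hN' : (0 : ℝ) < N := by
    have : 0 < N := by omega
    exact_mod_cast this
  have hMpos : (0 : ℝ) < M τ j' := by
    have : 0 < M τ j' := by omega
    exact_mod_cast this
  rw [div_le_div_iff₀ hN' (by positivity)]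
  rw [one_mul]
  have hMle : (M τ j' : ℝ) * ((τ j' : ℝ) + 2) ≤ 2 ^ j' := by
    have := Nat.div_mul_le_self (2 ^ j') (τ j' + 2)
    have h3 : (((2 ^ j' / (τ j' + 2)) * (τ j' + 2) : ℕ) : ℝ) ≤ ((2 ^ j' : ℕ) : ℝ) := by
      exact_mod_cast this
    push_cast at h3
    unfold M
    exact_mod_cast h3
  rcases Nat.lt_or_ge j' J with hj | hj
  · have h3 : (2 : ℝ) ^ j' ≤ 2 ^ J := pow_le_pow_right₀ (by norm_num) hj.le
    have h4 : (N0 : ℝ) + 1 ≤ N := by exact_mod_cast hN
    have h5 : (M τ j' : ℝ) ≤ 2 ^ j' := by exact_mod_cast (M_lt τ j').le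
    calc s * (8 * (M τ j' : ℝ)) ≤ s * (8 * 2 ^ J) := by gcongr; exact h5.trans h3
      _ = 8 * s * 2 ^ J := by ring
      _ ≤ N := by linarith
  · have h3 : 8 * s ≤ (τ j' : ℝ) := hJ j' hj
    have h4 : (2 : ℝ) ^ j' ≤ N := by
      have h5 : 2 ^ j' ≤ k := by omega
      exact_mod_cast h5.trans hk.le
    calc s * (8 * (M τ j' : ℝ)) = M τ j' * (8 * s) := by ring
      _ ≤ M τ j' * ((τ j' : ℝ) + 2) := by
          apply mul_le_mul_of_nonneg_left _ hMpos.le
          linarith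
      _ ≤ 2 ^ j' := hMle
      _ ≤ N := h4

/-- The constructed points have Poissonian pair correlations. -/
theorem pt_ppc (hτ : Tendsto τ atTop atTop) (hu : PPCT u) : PPCT (pt τ hα u) := by
  refine ppc_insert (pt τ hα u) (IsP τ) (M τ) (Bl_card τ)
    (sigma_lim (M τ) τ (fun j => le_rfl) hτ) (pt_hsep τ hα u hτ) (infinite_not_isP τ) ?_
  refine ppc_perturb hu fun i => ?_
  have h1 : ¬ IsP τ (Nat.nth (fun n => ¬ IsP τ n) i) :=
    Nat.nth_mem_of_infinite (infinite_not_isP τ) i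
  have h2 := seq_approx τ hα u _ h1
  rw [Nat.count_nth_of_infinite (infinite_not_isP τ)] at h2
  exact h2

/-! ### The energy -/

lemma energy_ge (j N : ℕ) (hN : 2 ^ (j + 1) ≤ N) :
    (M τ j / 3) ^ 3 ≤ energy (seq τ hα u) N := by
  set m := M τ j / 3 with hm
  have hm3 : 3 * m ≤ M τ j := by rw [hm]; omega
  have hMj := M_lt τ j
  have hN' : 2 ^ j + 2 ^ j ≤ N := by rw [pow_succ] at hN; omega
  have hcard : ((range m) ×ˢ (range m) ×ˢ (range m)).card = m ^ 3 := by
    rw [Finset.card_product, Finset.card_product, Finset.card_range]; ring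
  rw [← hcard]
  unfold energy
  apply Finset.card_le_card_of_injOn
    (fun q => (2 ^ j + (m + q.1), 2 ^ j + (m + q.2.1), 2 ^ j + (m + q.2.2),
      2 ^ j + (m + q.1 + q.2.1 - q.2.2)))
  · rintro ⟨a, b, c⟩ h
    simp only [Finset.coe_product, Finset.coe_range, Set.mem_prod, Set.mem_Iio] at h
    obtain ⟨ha, hb, hc⟩ := h
    simp only [Finset.coe_filter, Finset.mem_product, Finset.mem_range, Set.mem_ofPred_eq]
    refine ⟨⟨by omega, by omega, by omega, by omega⟩, ?_⟩
    rw [seq_prog τ hα u j _ (by omega), seq_prog τ hα u j _ (by omega),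
      seq_prog τ hα u j _ (by omega), seq_prog τ hα u j _ (by omega)]
    have h1 : m + a + (m + b) = (m + c) + (m + a + b - c) := by omega
    calc seq τ hα u (2 ^ j) + (m + a) * dif τ hα j + (seq τ hα u (2 ^ j) + (m + b) * dif τ hα j)
        = 2 * seq τ hα u (2 ^ j) + (m + a + (m + b)) * dif τ hα j := by ring
      _ = 2 * seq τ hα u (2 ^ j) + ((m + c) + (m + a + b - c)) * dif τ hα j := by rw [h1]
      _ = _ := by ring
  · rintro ⟨a, b, c⟩ _ ⟨a', b', c'⟩ _ h
    simp only [Prod.mk.injEq] at h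
    obtain ⟨h1, h2, h3, -⟩ := h
    simp only [Prod.mk.injEq]
    omega

end Construction

/-- for every `ψ → ∞` the energy of the constructed sequence is at least `c N^3 / ψ N` -/
lemma energy_bound (ψ : ℕ → ℝ) (hψ : Tendsto ψ atTop atTop) {α : ℝ} (hα : Irrational α)
    (u : ℕ → UnitAddCircle) :
    ∀ᶠ N : ℕ in atTop, 1 / 72 ^ 3 * (N : ℝ) ^ 3 / ψ N ≤
      (energy (seq (tau ψ) hα u) N : ℝ) := by
  have hτ := tau_tendsto ψ hψ
  -- eventually 6 (j + 2) ≤ 2 ^ j and 1 ≤ τ j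
  obtain ⟨J, hJ⟩ := eventually_atTop.1 (tendsto_atTop.1 hτ 1)
  filter_upwards [eventually_ge_atTop (2 ^ (J + 7))] with N hN
  have hN0 : N ≠ 0 := by
    have : 0 < 2 ^ (J + 7) := by positivity
    omega
  obtain ⟨j, hj⟩ : ∃ j, Nat.log 2 N = j + 1 := by
    have : J + 7 ≤ Nat.log 2 N := Nat.le_log_of_pow_le (by norm_num) hN
    exact ⟨Nat.log 2 N - 1, by omega⟩
  have hjJ : J + 6 ≤ j := by
    have : J + 7 ≤ Nat.log 2 N := Nat.le_log_of_pow_le (by norm_num) hN
    omega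
  have h1 : 2 ^ (j + 1) ≤ N := by rw [← hj]; exact Nat.pow_log_le_self 2 hN0
  have h2 : N < 2 ^ (j + 2) := by
    have := Nat.lt_pow_succ_log_self (b := 2) (by norm_num) N
    rw [hj] at this
    exact this
  have hτ1 : 1 ≤ tau ψ j := hJ j (by omega)
  have hτj := tau_le ψ j
  have hcube := tau_spec ψ j (by omega) N (le_trans (Nat.pow_le_pow_right (by norm_num)
    (Nat.le_succ j)) h1)
  have hen := energy_ge (tau ψ) hα u j N h1
  -- lower bound for M / 3
  have hpow : 6 * (j + 2) ≤ 2 ^ j := by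
    obtain ⟨i, rfl⟩ : ∃ i, j = i + 6 := ⟨j - 6, by omega⟩
    clear * -
    induction i with
    | zero => norm_num
    | succ i ih =>
      have : 2 ^ (i + 1 + 6) = 2 * 2 ^ (i + 6) := by ring
      omega
  set t := tau ψ j with ht
  have ht' : (1 : ℝ) ≤ t := by exact_mod_cast hτ1
  have hm : (2 : ℝ) ^ j / (6 * ((t : ℝ) + 2)) ≤ ((M (tau ψ) j / 3 : ℕ) : ℝ) := by
    have e : M (tau ψ) j / 3 = 2 ^ j / ((t + 2) * 3) := by
      unfold M; rw [Nat.div_div_eq_div_mul]
    rw [e]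
    have h3 : (2 : ℝ) ^ j < (((2 ^ j / ((t + 2) * 3) : ℕ) : ℝ) + 1) * ((t + 2) * 3) := by
      have := Nat.lt_mul_div_succ (2 ^ j) (b := (t + 2) * 3) (by positivity)
      have h4 : (2 ^ j : ℕ) < (2 ^ j / ((t + 2) * 3) + 1) * ((t + 2) * 3) := by
        rw [mul_comm]
        exact this
      exact_mod_cast h4
    have h5 : 6 * ((t : ℝ) + 2) ≤ 2 ^ j := by
      have : 6 * (t + 2) ≤ 2 ^ j := by omega
      exact_mod_cast this
    rw [div_le_iff₀ (by positivity)]
    nlinarith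
  have hψpos : 0 < ψ N := by
    have : (0 : ℝ) < (t : ℝ) ^ 3 := by positivity
    linarith
  have hNreal : (N : ℝ) ≤ 4 * 2 ^ j := by
    have : N ≤ 4 * 2 ^ j := by
      have e : 2 ^ (j + 2) = 4 * 2 ^ j := by ring
      omega
    exact_mod_cast this
  have h6 : (N : ℝ) / (72 * t) ≤ ((M (tau ψ) j / 3 : ℕ) : ℝ) := by
    refine le_trans ?_ hm
    rw [div_le_div_iff₀ (by positivity) (by positivity)]
    calc (N : ℝ) * (6 * ((t : ℝ) + 2)) ≤ 4 * 2 ^ j * (6 * (3 * t)) := by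
          apply mul_le_mul hNreal _ (by positivity) (by positivity)
          linarith
      _ = 2 ^ j * (72 * t) := by ring
  have h7 : ((N : ℝ) / (72 * t)) ^ 3 ≤ (energy (seq (tau ψ) hα u) N : ℝ) := by
    calc ((N : ℝ) / (72 * t)) ^ 3 ≤ (((M (tau ψ) j / 3 : ℕ) : ℝ)) ^ 3 := by gcongr
      _ ≤ _ := by exact_mod_cast hen
  refine le_trans ?_ h7
  rw [div_pow, mul_pow, div_le_div_iff₀ hψpos (by positivity)]
  have hN3 : (0 : ℝ) ≤ (N : ℝ) ^ 3 := by positivity
  calc 1 / 72 ^ 3 * (N : ℝ) ^ 3 * (72 ^ 3 * (t : ℝ) ^ 3) = (N : ℝ) ^ 3 * (t : ℝ) ^ 3 := by ring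
    _ ≤ (N : ℝ) ^ 3 * ψ N := mul_le_mul_of_nonneg_left hcube hN3

/-- **Main theorem.** For every `ψ` tending to infinity and every irrational `α` there is a
strictly increasing sequence of positive integers whose additive energy is at least
`c N^3 / ψ N` for all large `N` and such that the fractional parts of `a n * α` have Poissonian
pair correlations. -/
theorem result (ψ : ℕ → ℝ) (hψ : Tendsto ψ atTop atTop) (α : ℝ) (hα : Irrational α) :
    ∃ a : ℕ → ℕ, StrictMono a ∧ (∀ n, 0 < a n) ∧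
      (∃ c : ℝ, 0 < c ∧ ∀ᶠ N : ℕ in atTop, c * (N : ℝ) ^ 3 / ψ N ≤ (energy a N : ℝ)) ∧
      HasPPC (fun n => Int.fract ((a n : ℝ) * α)) := by
  obtain ⟨u, hu⟩ := exists_ppc
  refine ⟨seq (tau ψ) hα u, seq_strictMono _ hα u, seq_pos _ hα u,
    ⟨1 / 72 ^ 3, by norm_num, energy_bound ψ hψ hα u⟩, ?_⟩
  have hppc := pt_ppc (tau ψ) hα u (tau_tendsto ψ hψ) hu
  intro s hs
  refine (hppc s hs).congr fun N => ?_
  congr 2
  unfold cpT closePairs
  congr 1
  apply Finset.filter_congr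
  rintro ⟨k, l⟩ -
  have hfr : ∀ y : ℝ, ((Int.fract y : ℝ) : UnitAddCircle) = (y : UnitAddCircle) := by
    intro y
    have h1 : ((⌊y⌋ : ℝ) : UnitAddCircle) = 0 := by
      rw [AddCircle.coe_eq_zero_iff]
      exact ⟨⌊y⌋, by simp⟩
    rw [Int.fract, AddCircle.coe_sub, h1, sub_zero]
  have h2 : distInt (Int.fract ((seq (tau ψ) hα u k : ℝ) * α) -
      Int.fract ((seq (tau ψ) hα u l : ℝ) * α)) =
      ‖pt (tau ψ) hα u k - pt (tau ψ) hα u l‖ := by
    unfold distInt
    rw [← UnitAddCircle.norm_eq, AddCircle.coe_sub, hfr, hfr]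
    unfold pt
    rw [← AddCircle.coe_nsmul, ← AddCircle.coe_nsmul, nsmul_eq_mul, nsmul_eq_mul]
  simp only [h2]

end Pool.Agent.Results.MP_1f5025_nt.HighEnergyPPC
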