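import Mathlib
import Pool.Agent.H88.PCBW

/-!
# A metric Poissonian threshold below all Bloom–Walker thresholds

There is a function `φ → ∞` which is a threshold (every strictly increasing sequence of
positive integers with `E_N = O(N ^ 3 / φ N)` is metric Poissonian) and which grows more slowly
than `(log N) ^ C₀` for every exponent `C₀ > 0` for which the Bloom–Walker statement holds.

Idea: in each class `E_N ≤ K N ^ 3 / (log N) ^ C₀` (for all `N`) the convergence
of the pair counts is uniform in measure (otherwise one can glue dilated bad sequences to one bad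
sequence of the class); then diagonalise over `K` and over the exponents.  That there is an
exponent with the Bloom–Walker property is proved as well (`Pool.Agent.H88.PCBW.bloom_walker`).
-/

set_option autoImplicit false

namespace Pool.Agent.Results.MP_1f5025_nt.SlowerThreshold

open Filter Topology Pool.Agent.H88.PCDefs

theorem result :
    (∃ C₀ : ℝ, 0 < C₀ ∧ IsThreshold (fun N => (Real.log N) ^ C₀)) ∧
    ∃ φ : ℕ → ℝ, Tendsto φ atTop atTop ∧ IsThreshold φ ∧
      ∀ C₀ : ℝ, 0 < C₀ → IsThreshold (fun N => (Real.log N) ^ C₀) →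
        Tendsto (fun N : ℕ => φ N / (Real.log N) ^ C₀) atTop (𝓝 0) := by
  refine ⟨⟨9, by norm_num, Pool.Agent.H88.PCBW.bloom_walker (by norm_num)⟩, ?_⟩
  obtain ⟨φ, hφ, h⟩ := Pool.Agent.H88.PCLog.exists_below
  refine ⟨φ, hφ, (h 9 (by norm_num) (Pool.Agent.H88.PCBW.bloom_walker (by norm_num))).2, ?_⟩
  intro C₀ hC₀ hT
  exact (h C₀ hC₀ hT).1

end Pool.Agent.Results.MP_1f5025_nt.SlowerThreshold
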